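import Pool.Agent.Run7.h77.RO.Defs

/-!
# MP_e6c71b_co (helper77, project RO), piece UP (helper888)
-/

namespace Run7.h888.RO

open Run7.h77.RO

theorem t_UP : S_LG → S_TRI → S_MULT → S_IND → S_UP := by
  intro hLG hTRI hMULT hIND p ε N hε
  obtain ⟨w, D, H, hw, hcf, hreg, hD, htwo⟩ := hLG (ε / 2) (by positivity)
  set m : ℕ := N + ⌈4 / ε⌉₊ + 1 with hm
  have hm1 : 1 ≤ m := by omega
  set v : ℕ := 4 * m + 2 * p + 4 with hv
  set B : ℕ := 2 * v * m with hB
  have hPar : Par p B w v m D H := ⟨hw, hm1, hB, le_of_eq hv.symm, hD, hreg⟩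
  set n : ℕ := Fintype.card (V p B w v) with hn
  have hcard : 3 * (2 * B * w) + (p * (2 * B * w + w) + p * (2 * B * w + w)) ≤ n := by
    have : n = 3 * (2 * B * w) + (p * (2 * B * w + w) + (p * (2 * B * w + w) +
        (w + (w * v + (2 * w * v + ((w * v - 2 * w) + (2 * w * v - 2 * w))))))) := by
      simp [hn, V]
    rw [this]
    omega
  let e : V p B w v ≃ Fin n := Fintype.equivFin _
  let K : SimpleGraph (Fin n) := (G p B w v H).comap e.symm
  have himg : ∀ c, e.symm '' (K.neighborSet c) = (G p B w v H).neighborSet (e.symm c) := by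
    intro c
    ext z
    constructor
    · rintro ⟨u, hu, rfl⟩
      exact hu
    · intro hz
      refine ⟨e z, ?_, e.symm_apply_apply z⟩
      show (G p B w v H).Adj (e.symm c) (e.symm (e z))
      rw [e.symm_apply_apply]; exact hz
  have hns : ∀ c, (K.neighborSet c).ncard = ((G p B w v H).neighborSet (e.symm c)).ncard := by
    intro c
    rw [← himg c, Set.ncard_image_of_injective _ e.symm.injective]
  obtain ⟨hmu1, hmu2⟩ := hMULT p B w v m D H hPar
  have hkN : (2 * p + 3) * (2 * B * w) ≤ n := by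
    refine le_trans ?_ hcard
    have : (2 * p + 3) * (2 * B * w) = 3 * (2 * B * w) + (p * (2 * B * w) + p * (2 * B * w)) := by
      ring
    rw [this]
    have : p * (2 * B * w) ≤ p * (2 * B * w + w) := Nat.mul_le_mul_left _ (by omega)
    omega
  refine ⟨n, K, ?_, ?_, ?_, ?_, ?_⟩
  · have h1 : m ≤ B * w := by
      have h2 : m ≤ B := by
        rw [hB]
        have : 1 ≤ 2 * v := by omega
        calc m = 1 * m := (one_mul m).symm
          _ ≤ 2 * v * m := Nat.mul_le_mul_right _ this
      calc m ≤ B := h2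
        _ = B * 1 := (mul_one B).symm
        _ ≤ B * w := Nat.mul_le_mul_left _ hw
    have h3 : B * w ≤ n := by
      have : 2 * B * w = 2 * (B * w) := by ring
      rw [this] at hcard
      omega
    omega
  · intro t ht
    rw [SimpleGraph.is3Clique_iff] at ht
    obtain ⟨x, y, z, hxy, hxz, hyz, -⟩ := ht
    apply hTRI p B w v H hw hcf {e.symm x, e.symm y, e.symm z}
    rw [SimpleGraph.is3Clique_triple_iff]
    exact ⟨hxy, hxz, hyz⟩
  · intro c
    rw [hns c]; exact hmu1 _
  · intro d
    have h1 : e.symm '' {c : Fin n | (K.neighborSet c).ncard = d} ⊆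
        {c : V p B w v | ((G p B w v H).neighborSet c).ncard = d} := by
      rintro _ ⟨u, hu, rfl⟩
      have hu' : (K.neighborSet u).ncard = d := hu
      show ((G p B w v H).neighborSet (e.symm u)).ncard = d
      rw [← hns u]; exact hu'
    calc {c : Fin n | (K.neighborSet c).ncard = d}.ncard
        = (e.symm '' {c : Fin n | (K.neighborSet c).ncard = d}).ncard :=
          (Set.ncard_image_of_injective _ e.symm.injective).symm
      _ ≤ _ := Set.ncard_le_ncard h1
      _ ≤ 2 * p + 3 := hmu2 d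
  · obtain ⟨s, hs⟩ := K.exists_isNIndepSet_indepNum
    have hX := hIND p B w v H (ε / 2) hw (by positivity) htwo (s.map e.symm.toEmbedding) (by
      intro x hx y hy hadj
      obtain ⟨x', hx', rfl⟩ := Finset.mem_map.mp hx
      obtain ⟨y', hy', rfl⟩ := Finset.mem_map.mp hy
      have hne : x' ≠ y' := by
        rintro rfl
        exact (G p B w v H).loopless.irrefl _ hadj
      exact hs.isIndepSet hx' hy' hne hadj)
    rw [Finset.card_map, hs.card_eq] at hX
    refine hX.trans ?_
    have hmε : 4 ≤ ε * m := by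
      have h1 : 4 / ε ≤ (⌈4 / ε⌉₊ : ℝ) := Nat.le_ceil _
      have h2 : (⌈4 / ε⌉₊ : ℝ) ≤ (m : ℝ) := by
        have : ⌈4 / ε⌉₊ ≤ m := by omega
        exact_mod_cast this
      have h3 : 4 / ε ≤ (m : ℝ) := h1.trans h2
      rw [div_le_iff₀ hε] at h3
      linarith
    have hw' : (0:ℝ) < w := by exact_mod_cast hw
    have hp' : (0:ℝ) ≤ p := Nat.cast_nonneg p
    have hkN' : (2 * (p : ℝ) + 3) * (2 * B * w) ≤ n := by exact_mod_cast hkN
    have hv' : (v : ℝ) = 4 * m + 2 * p + 4 := by rw [hv]; push_cast; ring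
    have hB' : (B : ℝ) = 2 * v * m := by rw [hB]; push_cast; ring
    have hm' : (0 : ℝ) ≤ m := Nat.cast_nonneg m
    have hv0 : (0 : ℝ) < v := by rw [hv']; positivity
    have hk0 : (0 : ℝ) < 2 * (p : ℝ) + 3 := by positivity
    have e1 : (2 * (B : ℝ) * w) + (2 * p + 3) * ε * (2 * B * w) ≤ (1 / (2 * p + 3) + ε) * n := by
      have h1 : (1 / (2 * (p : ℝ) + 3) + ε) * ((2 * (p : ℝ) + 3) * (2 * B * w)) ≤
          (1 / (2 * p + 3) + ε) * n := mul_le_mul_of_nonneg_left hkN' (by positivity)
      refine le_trans (le_of_eq ?_) h1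
      field_simp
    refine le_trans ?_ e1
    -- the remaining inequality
    have h8 : 4 * (p : ℝ) + 1 + 6 * v ≤ 8 * v := by
      rw [hv']; linarith
    have h9 : 8 * (v : ℝ) ≤ (2 * p + 3) * ε * B := by
      rw [hB']
      have h10 : (2 * (p : ℝ) + 3) * ε * (2 * v * m) = (2 * v) * ((2 * p + 3) * (ε * m)) := by ring
      rw [h10]
      have h11 : 3 * 4 ≤ (2 * (p : ℝ) + 3) * (ε * m) :=
        mul_le_mul (by linarith) hmε (by norm_num) hk0.le
      nlinarith
    have h12 : (4 * (p : ℝ) + 1 + 6 * v) * w ≤ ((2 * p + 3) * ε * B) * w :=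
      mul_le_mul_of_nonneg_right (h8.trans h9) hw'.le
    nlinarith

end Run7.h888.RO
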